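import Mathlib

/-!
Disks, tree-decompositions, tree-breadth and strong tree-breadth of a simple graph.
-/

namespace Pool.Agent.Lib.MP_3ffbec_co

/-- The disk `D_r(v, G)`: all vertices at distance at most `r` from `v`. -/
def disk {V : Type} (G : SimpleGraph V) (v : V) (r : ℕ) : Set V :=
  {u | G.edist u v ≤ r}

/-- `T` is a tree, `B i` is the bag at its node `i`; every vertex and every edge of `G` lies in a bag,
and the nodes whose bag contains a given vertex induce a connected subgraph (a subtree) of `T`. -/
def IsTreeDecomp {V ι : Type} (G : SimpleGraph V) (T : SimpleGraph ι) (B : ι → Set V) : Prop :=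
  T.IsTree ∧ (∀ v, ∃ i, v ∈ B i) ∧ (∀ u v, G.Adj u v → ∃ i, u ∈ B i ∧ v ∈ B i) ∧
    ∀ v, (T.induce {i | v ∈ B i}).Connected

/-- Tree-breadth: the least `r` such that some tree-decomposition has every bag inside a disk of
radius `r`. -/
noncomputable def tb {V : Type} (G : SimpleGraph V) : ℕ :=
  sInf {r | ∃ (ι : Type) (_ : Finite ι) (T : SimpleGraph ι) (B : ι → Set V),
    IsTreeDecomp G T B ∧ ∀ i, ∃ v, B i ⊆ disk G v r}

/-- Strong tree-breadth: the least `r` such that some tree-decomposition has every bag equal to a
disk of radius `r` centred at one of its own vertices. -/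
noncomputable def stb {V : Type} (G : SimpleGraph V) : ℕ :=
  sInf {r | ∃ (ι : Type) (_ : Finite ι) (T : SimpleGraph ι) (B : ι → Set V),
    IsTreeDecomp G T B ∧ ∀ i, ∃ v ∈ B i, B i = disk G v r}

end Pool.Agent.Lib.MP_3ffbec_co
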