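import Pool.Agent.Lib.MP_3ffbec_co.Defs

/-!
General facts on disks and tree-decompositions.
-/

namespace Pool.Agent.Lib.MP_3ffbec_co

open SimpleGraph

variable {V ι : Type}

/-- There is a walk of length at most `n`. -/
def Near (G : SimpleGraph V) (u v : V) (n : ℕ) : Prop := ∃ p : G.Walk u v, p.length ≤ n

theorem mem_disk {G : SimpleGraph V} {u v : V} {r : ℕ} : u ∈ disk G v r ↔ Near G u v r := by
  constructor
  · intro h
    have h' : G.edist u v ≤ r := h
    have hne : G.edist u v ≠ ⊤ := ne_top_of_le_ne_top (by simp) h'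
    obtain ⟨p, hp⟩ := exists_walk_of_edist_ne_top hne
    refine ⟨p, ?_⟩
    rw [← hp] at h'
    exact_mod_cast h'
  · rintro ⟨p, hp⟩
    show G.edist u v ≤ r
    exact (edist_le p).trans (by exact_mod_cast hp)

theorem Near.refl (G : SimpleGraph V) (u : V) (n : ℕ) : Near G u u n := ⟨Walk.nil, by simp⟩

theorem Near.symm {G : SimpleGraph V} {u v : V} {n : ℕ} (h : Near G u v n) : Near G v u n := by
  obtain ⟨p, hp⟩ := h
  exact ⟨p.reverse, by simpa using hp⟩

theorem Near.cons {G : SimpleGraph V} {u v w : V} {n : ℕ} (h : G.Adj u v) (h' : Near G v w n) :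
    Near G u w (n + 1) := by
  obtain ⟨p, hp⟩ := h'
  exact ⟨Walk.cons h p, by simpa using hp⟩

theorem Near.mono {G : SimpleGraph V} {u v : V} {n m : ℕ} (h : Near G u v n) (hnm : n ≤ m) :
    Near G u v m := by
  obtain ⟨p, hp⟩ := h
  exact ⟨p, hp.trans hnm⟩

theorem Near.reachable {G : SimpleGraph V} {u v : V} {n : ℕ} (h : Near G u v n) :
    G.Reachable u v := by
  obtain ⟨p, _⟩ := h
  exact ⟨p⟩

/-- A function that grows by at most one along edges is a lower bound for the distance. -/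
theorem Near.le_of_lip {G : SimpleGraph V} (f : V → ℕ) (hf : ∀ u v, G.Adj u v → f u ≤ f v + 1)
    {u v : V} {n : ℕ} (h : Near G u v n) : f u ≤ f v + n := by
  obtain ⟨p, hp⟩ := h
  have : f u ≤ f v + p.length := by
    clear hp
    induction p with
    | nil => simp
    | cons h p ih =>
      have := hf _ _ h
      simp only [Walk.length_cons]
      omega
  omega

/-- A property of nodes preserved along tree edges between bags containing `v` is shared by all
bags containing `v`. -/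
theorem IsTreeDecomp.propagate {G : SimpleGraph V} {T : SimpleGraph ι} {B : ι → Set V}
    (h : IsTreeDecomp G T B) (v : V) (Q : ι → Prop)
    (hQ : ∀ k k', T.Adj k k' → v ∈ B k → v ∈ B k' → Q k → Q k')
    {k k' : ι} (hk : v ∈ B k) (hk' : v ∈ B k') (hq : Q k) : Q k' := by
  have hc := (h.2.2.2 v).preconnected ⟨k, hk⟩ ⟨k', hk'⟩
  obtain ⟨p⟩ := hc
  have : ∀ (a b : {i | v ∈ B i}) (p : (T.induce {i | v ∈ B i}).Walk a b), Q a.1 → Q b.1 := by
    intro a b p
    induction p with
    | nil => exact id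
    | @cons a b c hab p ih =>
      intro ha
      exact ih (hQ a.1 b.1 hab a.2 b.2 ha)
  exact this _ _ p hq

/-- The intersection of two adjacent bags separates them. -/
theorem IsTreeDecomp.separate {G : SimpleGraph V} {T : SimpleGraph ι} {B : ι → Set V}
    (h : IsTreeDecomp G T B) {i j : ι} (hij : T.Adj i j) :
    ∃ P : V → Prop, (∀ u ∈ B i, P u) ∧ (∀ w ∈ B j, w ∉ B i → ¬ P w) ∧
      ∀ u v, P u → G.Adj u v → ¬ (u ∈ B i ∧ u ∈ B j) → P v := by
  have hb : T.IsBridge s(i, j) := (isAcyclic_iff_forall_adj_isBridge.1 h.1.isAcyclic) hij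
  rw [isBridge_iff] at hb
  have key : ∀ v, ¬ (v ∈ B i ∧ v ∈ B j) → ∀ k k', v ∈ B k → v ∈ B k' →
      (T.deleteEdges {s(i, j)}).Reachable i k → (T.deleteEdges {s(i, j)}).Reachable i k' := by
    intro v hv k k' hk hk' hr
    refine h.propagate v (fun k => (T.deleteEdges {s(i, j)}).Reachable i k) ?_ hk hk' hr
    intro a b hab ha hb' hq
    refine hq.trans (Adj.reachable ?_)
    rw [deleteEdges_adj]
    refine ⟨hab, ?_⟩
    intro he
    rw [Set.mem_singleton_iff, Sym2.eq_iff] at he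
    rcases he with ⟨rfl, rfl⟩ | ⟨rfl, rfl⟩
    · exact hv ⟨ha, hb'⟩
    · exact hv ⟨hb', ha⟩
  refine ⟨fun u => ∃ k, (T.deleteEdges {s(i, j)}).Reachable i k ∧ u ∈ B k, ?_, ?_, ?_⟩
  · intro u hu
    exact ⟨i, Reachable.refl _, hu⟩
  · rintro w hw hwi ⟨k, hk, hwk⟩
    exact hb (key w (fun hh => hwi hh.1) k j hwk hw hk)
  · rintro u v ⟨k, hk, huk⟩ huv hu
    obtain ⟨k', hu', hv'⟩ := h.2.2.1 u v huv
    exact ⟨k', key u hu k k' huk hu' hk, hv'⟩

end Pool.Agent.Lib.MP_3ffbec_co
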