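import Pool.Agent.Lib.MP_3ffbec_co.Tree

/-!
The graph. Over each node of the ternary tree of depth `N` sits a row of Boolean vectors indexed by
pairs of nodes; two vectors in adjacent rows are joined when they agree at every pair whose tree
path uses the edge between the two rows.
-/

namespace Pool.Agent.Lib.MP_3ffbec_co

open SimpleGraph

abbrev Node (N : ℕ) := {l : W // l.length ≤ N}

instance (N : ℕ) : Finite (Node N) := (List.finite_length_le (Fin 3) N).to_subtype

abbrev Vec (N : ℕ) := Node N × Node N → Bool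

abbrev Vx (N : ℕ) := Node N × Vec N

variable {N : ℕ}

/-- The set of edges on which the coordinate `s` is frozen. -/
def F (s : Node N × Node N) : Finset W := D s.1.1 s.2.1

def Up (u v : Vx N) : Prop :=
  (∃ j, v.1.1 = j :: u.1.1) ∧ ∀ s, v.1.1 ∈ F s → u.2 s = v.2 s

def Gr (N : ℕ) : SimpleGraph (Vx N) where
  Adj u v := Up u v ∨ Up v u
  symm := ⟨fun _ _ h => h.symm⟩
  loopless := ⟨fun u h => by
    rcases h with ⟨⟨j, hj⟩, _⟩ | ⟨⟨j, hj⟩, _⟩ <;>
    · have := congrArg List.length hj
      simp at this⟩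

theorem adj_up {R R' : Node N} {x y : Vec N} {j : Fin 3} (h : R'.1 = j :: R.1)
    (hxy : ∀ s, R'.1 ∈ F s → x s = y s) : (Gr N).Adj (R, x) (R', y) :=
  Or.inl ⟨⟨j, h⟩, hxy⟩

theorem adj_cases {u v : Vx N} (h : (Gr N).Adj u v) (A : W) :
    ∃ e, (∀ s, e ∈ F s → u.2 s = v.2 s) ∧
      ((e ∉ D A v.1.1 ∧ D A u.1.1 = insert e (D A v.1.1)) ∨
        (e ∉ D A u.1.1 ∧ D A v.1.1 = insert e (D A u.1.1))) := by
  rcases h with ⟨⟨j, hj⟩, hs⟩ | ⟨⟨j, hj⟩, hs⟩
  · refine ⟨v.1.1, hs, ?_⟩
    rw [hj]
    by_cases h : (j :: u.1.1) <:+ A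
    · exact Or.inl (D_cons_of_suffix h)
    · exact Or.inr (D_cons_of_not h)
  · refine ⟨u.1.1, fun s h => (hs s h).symm, ?_⟩
    rw [hj]
    by_cases h : (j :: v.1.1) <:+ A
    · exact Or.inr (D_cons_of_suffix h)
    · exact Or.inl (D_cons_of_not h)

theorem near_length {u v : Vx N} {n : ℕ} (h : Near (Gr N) u v n) :
    u.1.1.length ≤ v.1.1.length + n := by
  refine Near.le_of_lip (fun u : Vx N => u.1.1.length) ?_ h
  rintro u v (⟨⟨j, hj⟩, _⟩ | ⟨⟨j, hj⟩, _⟩)
  · simp only [hj, List.length_cons]; omega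
  · simp only [hj, List.length_cons]; omega

theorem near_card {u a : Vx N} {n : ℕ} (h : Near (Gr N) u a n) : (D a.1.1 u.1.1).card ≤ n := by
  have := Near.le_of_lip (fun u : Vx N => (D a.1.1 u.1.1).card) (by
    intro u v huv
    obtain ⟨e, _, ⟨h1, h2⟩ | ⟨h1, h2⟩⟩ := adj_cases huv a.1.1
    · simp only [h2, Finset.card_insert_of_notMem h1]; omega
    · simp only [h2, Finset.card_insert_of_notMem h1]; omega) h
  simpa [D_self] using this

theorem near_card_two {u a : Vx N} {n : ℕ} (h : Near (Gr N) u a n) (s : Node N × Node N)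
    (hs : D a.1.1 u.1.1 ⊆ F s) (hne : u.2 s ≠ a.2 s) : (D a.1.1 u.1.1).card + 2 ≤ n := by
  classical
  have := Near.le_of_lip (fun u : Vx N => (D a.1.1 u.1.1).card +
    if D a.1.1 u.1.1 ⊆ F s ∧ u.2 s ≠ a.2 s then 2 else 0) (by
    intro u v huv
    obtain ⟨e, he, ⟨h1, h2⟩ | ⟨h1, h2⟩⟩ := adj_cases huv a.1.1
    · have c := Finset.card_insert_of_notMem h1
      rw [← h2] at c
      by_cases hu : D a.1.1 u.1.1 ⊆ F s ∧ u.2 s ≠ a.2 s
      · have hv : D a.1.1 v.1.1 ⊆ F s ∧ v.2 s ≠ a.2 s := by
          rw [h2] at hu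
          refine ⟨(Finset.subset_insert _ _).trans hu.1, ?_⟩
          rw [← he s (hu.1 (Finset.mem_insert_self _ _))]
          exact hu.2
        simp only [if_pos hu, if_pos hv]; omega
      · simp only [if_neg hu]; omega
    · have c := Finset.card_insert_of_notMem h1
      rw [← h2] at c
      split_ifs <;> omega) h
  simp only [D_self, Finset.card_empty, ne_eq, not_true_eq_false, and_false, if_false,
    hs, hne, not_false_eq_true, and_self, if_true] at this
  omega

theorem near_of_agree : ∀ (n : ℕ) (R Q : Node N) (x y : Vec N), R.1.length + Q.1.length = n →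
    (∀ s, D R.1 Q.1 ⊆ F s → x s = y s) → Near (Gr N) (Q, y) (R, x) (D R.1 Q.1).card := by
  intro n
  induction n using Nat.strong_induction_on with
  | _ n ih =>
    have step : ∀ (R Q : Node N) (x y : Vec N) (j : Fin 3) (Q' : W), R.1.length + Q.1.length = n →
        Q.1 = j :: Q' → ¬ (j :: Q') <:+ R.1 → (∀ s, D R.1 Q.1 ⊆ F s → x s = y s) →
        Near (Gr N) (Q, y) (R, x) (D R.1 Q.1).card := by
      classical
      intro R Q x y j Q' hn hQ hj hxy
      have hl : Q'.length ≤ N := by
        have := Q.2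
        rw [hQ] at this
        simp at this
        omega
      obtain ⟨h1, h2⟩ := D_cons_of_not hj
      let y' : Vec N := fun s => if Q.1 ∈ F s then y s else x s
      have hadj : (Gr N).Adj (⟨Q', hl⟩, y') (Q, y) :=
        adj_up (j := j) hQ (fun s hs => by simp [y', hs])
      have := ih (R.1.length + Q'.length) (by rw [hQ] at hn; simp at hn; omega) R ⟨Q', hl⟩ x y' rfl
        (by
          intro s hs
          by_cases hq : Q.1 ∈ F s
          · simp only [y', hq, if_true]
            apply hxy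
            rw [hQ, h2, Finset.insert_subset_iff]
            exact ⟨hQ ▸ hq, hs⟩
          · simp [y', hq])
      have h3 : (D R.1 Q.1).card = (D R.1 Q').card + 1 := by
        rw [hQ, h2, Finset.card_insert_of_notMem h1]
      rw [h3]
      exact Near.cons hadj.symm this
    intro R Q x y hn hxy
    by_cases hRQ : R.1 = Q.1
    · have : R = Q := Subtype.ext hRQ
      subst this
      have : x = y := funext fun s => hxy s (by simp [D_self])
      subst this
      exact Near.refl _ _ _
    rcases exists_cons_of_ne hRQ with ⟨j, B', hB, hj⟩ | ⟨j, A', hA, hj⟩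
    · exact step R Q x y j B' hn hB hj hxy
    · rw [D_comm]
      exact (step Q R y x j A' (by omega) hA hj
        (fun s hs => (hxy s (by rwa [D_comm])).symm)).symm

/-- The child `j` of an inner node. -/
def child (R : Node N) (h : R.1.length < N) (j : Fin 3) : Node N := ⟨j :: R.1, by simpa using h⟩

theorem row_chain (R : Node N) (h : R.1.length < N) (x y : Vec N) :
    ∃ y1 y2 : Vec N,
      (Gr N).Adj (R, x) (child R h 0, y1) ∧ (Gr N).Adj (child R h 0, y1) (R, y1) ∧
      (Gr N).Adj (R, y1) (child R h 1, y2) ∧ (Gr N).Adj (child R h 1, y2) (R, y2) ∧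
      (Gr N).Adj (R, y2) (child R h 2, y) ∧ (Gr N).Adj (child R h 2, y) (R, y) := by
  classical
  refine ⟨fun s => if (0 :: R.1) ∈ F s then x s else y s,
    fun s => if (0 :: R.1) ∈ F s ∧ (1 :: R.1) ∈ F s then x s else y s,
    adj_up (j := 0) rfl ?_, (adj_up (j := 0) rfl (fun _ _ => rfl)).symm,
    adj_up (j := 1) rfl ?_, (adj_up (j := 1) rfl (fun _ _ => rfl)).symm,
    adj_up (j := 2) rfl ?_, (adj_up (j := 2) rfl (fun _ _ => rfl)).symm⟩
  · intro s hs
    have hs' : (0 :: R.1) ∈ F s := hs
    simp [hs']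
  · intro s hs
    have hs' : (1 :: R.1) ∈ F s := hs
    simp [hs']
  · intro s hs
    have hs' : (2 :: R.1) ∈ F s := hs
    obtain ⟨j, hj⟩ := exists_notMem_D s.1.1 s.2.1 R.1
    have : ¬ ((0 :: R.1) ∈ F s ∧ (1 :: R.1) ∈ F s) := by
      rintro ⟨h0, h1⟩
      fin_cases j
      · exact hj h0
      · exact hj h1
      · exact hj hs'
    simp only [if_neg this]

theorem near_row (R : Node N) (h : R.1.length < N) (x y : Vec N) :
    Near (Gr N) (R, x) (R, y) 6 := by
  obtain ⟨y1, y2, h1, h2, h3, h4, h5, h6⟩ := row_chain R h x y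
  exact Near.cons h1 (Near.cons h2 (Near.cons h3 (Near.cons h4 (Near.cons h5
    (Near.cons h6 (Near.refl _ _ 0))))))

theorem gr_connected (hN : 0 < N) : (Gr N).Connected := by
  let o : Node N := ⟨[], by simp⟩
  have : Nonempty (Vx N) := ⟨(o, fun _ => false)⟩
  refine ⟨fun u v => ?_⟩
  have h1 := (near_of_agree _ o u.1 u.2 u.2 rfl (fun _ _ => rfl)).reachable
  have h2 := (near_of_agree _ o v.1 v.2 v.2 rfl (fun _ _ => rfl)).reachable
  have h3 := (near_row o (by simpa [o] using hN) u.2 v.2).reachable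
  exact h1.trans (h3.trans h2.symm)

/-! ### A tree-decomposition of breadth at most seven -/

def Tr (N : ℕ) : SimpleGraph (Node N) where
  Adj u v := (∃ j, v.1 = j :: u.1) ∨ (∃ j, u.1 = j :: v.1)
  symm := ⟨fun _ _ h => h.symm⟩
  loopless := ⟨fun u h => by
    rcases h with ⟨j, hj⟩ | ⟨j, hj⟩ <;>
    · have := congrArg List.length hj
      simp at this⟩

theorem tr_isTree : (Tr N).IsTree := by
  let o : Node N := ⟨[], by simp⟩
  have hc : (Tr N).Connected := by
    have : Nonempty (Node N) := ⟨o⟩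
    have key : ∀ (l : W) (h : l.length ≤ N), (Tr N).Reachable ⟨l, h⟩ o := by
      intro l
      induction l with
      | nil => intro h; exact Reachable.refl _
      | cons j l ih =>
        intro h
        have h' : l.length ≤ N := by simp at h; omega
        have : (Tr N).Adj ⟨j :: l, h⟩ ⟨l, h'⟩ := Or.inr ⟨j, rfl⟩
        exact this.reachable.trans (ih h')
    exact ⟨fun u v => (key u.1 u.2).trans (key v.1 v.2).symm⟩
  refine ⟨hc, ?_⟩
  rw [isAcyclic_iff_forall_adj_isBridge]
  have main : ∀ (u v : Node N) (j : Fin 3), v.1 = j :: u.1 →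
      ¬ ((Tr N).deleteEdges {s(v, u)}).Reachable v u := by
    intro u v j hj ⟨p⟩
    have inv : ∀ (a b : Node N) (p : ((Tr N).deleteEdges {s(v, u)}).Walk a b),
        v.1 <:+ a.1 → v.1 <:+ b.1 := by
      intro a b p
      induction p with
      | nil => exact id
      | @cons a b c hab p ih =>
        intro ha
        apply ih
        rw [deleteEdges_adj] at hab
        obtain ⟨⟨k, hk⟩ | ⟨k, hk⟩, hne⟩ := hab
        · rw [hk]; exact ha.trans (List.suffix_cons _ _)
        · rw [hk, List.suffix_cons_iff] at ha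
          rcases ha with ha | ha
          · exfalso
            apply hne
            have h1 : a = v := Subtype.ext (hk.trans ha.symm)
            have h2 : b = u := by
              apply Subtype.ext
              rw [hj] at ha
              exact (List.cons.inj ha).2.symm
            rw [h1, h2]
            rfl
          · exact ha
    have := inv _ _ p (List.suffix_refl _)
    rw [hj] at this
    exact not_cons_suffix (List.suffix_refl _) this
  intro u v huv
  rw [isBridge_iff]
  rcases huv with ⟨j, hj⟩ | ⟨j, hj⟩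
  · rw [Sym2.eq_swap]
    exact fun h => main u v j hj h.symm
  · exact main v u j hj

def bag (R : Node N) : Set (Vx N) := {u | u.1 = R ∨ u.1.1 = R.1.tail}

theorem bag_decomp : IsTreeDecomp (Gr N) (Tr N) bag := by
  refine ⟨tr_isTree, fun v => ⟨v.1, Or.inl rfl⟩, ?_, ?_⟩
  · rintro u v (⟨⟨j, hj⟩, _⟩ | ⟨⟨j, hj⟩, _⟩)
    · exact ⟨v.1, Or.inr (by simp [hj]), Or.inl rfl⟩
    · exact ⟨u.1, Or.inl rfl, Or.inr (by simp [hj])⟩
  · intro v
    let c : {i | v ∈ bag i} := ⟨v.1, Or.inl rfl⟩
    have : Nonempty {i | v ∈ bag i} := ⟨c⟩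
    have key : ∀ a : {i | v ∈ bag i}, ((Tr N).induce {i | v ∈ bag i}).Reachable a c := by
      rintro ⟨a, ha⟩
      by_cases h : v.1 = a
      · have : (⟨a, ha⟩ : {i | v ∈ bag i}) = c := Subtype.ext h.symm
        rw [this]
      · rcases ha with ha | ha
        · exact absurd ha h
        · apply Adj.reachable
          obtain ⟨l, hl⟩ := a
          cases l with
          | nil => exact absurd (Subtype.ext ha) h
          | cons j l => exact Or.inr ⟨j, by simpa using ha.symm⟩
    exact ⟨fun a b => (key a).trans (key b).symm⟩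

theorem bag_subset (hN : 0 < N) (R : Node N) : ∃ v, bag R ⊆ disk (Gr N) v 7 := by
  have hl : R.1.tail.length < N := by
    have := R.2
    simp
    omega
  let P : Node N := ⟨R.1.tail, hl.le⟩
  refine ⟨(P, fun _ => false), ?_⟩
  rintro ⟨Q, x⟩ hu
  rw [mem_disk]
  by_cases h : Q = P
  · subst h
    exact (near_row _ hl _ _).mono (by norm_num)
  · rcases hu with hu | hu
    · have hu' : Q = R := hu
      subst hu'
      obtain ⟨l, hl'⟩ := Q
      cases l with
      | nil => exact absurd rfl h
      | cons j l =>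
        exact Near.cons (adj_up (j := j) (R := P) (x := x) (y := x) rfl (fun _ _ => rfl)).symm
          (near_row _ hl _ _)
    · exact absurd (Subtype.ext hu) h

theorem tb_le (hN : 0 < N) : tb (Gr N) ≤ 7 :=
  Nat.sInf_le ⟨Node N, inferInstance, Tr N, bag, bag_decomp, bag_subset hN⟩

end Pool.Agent.Lib.MP_3ffbec_co
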