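import Pool.Agent.Lib.MP_3ffbec_co.Graph

/-!
Two disks of the same radius centred in different rows are not separated by their intersection,
so no tree-decomposition of the graph consists of disks of a small radius.
-/

namespace Pool.Agent.Lib.MP_3ffbec_co

open SimpleGraph

variable {N : ℕ}

/-- The nodes of the ray, as nodes of the finite tree. -/
def rayN (M : W) (j : Fin 3) (H : ℕ) (hH : M.length + H < N) (h : ℕ) : Node N :=
  ⟨ray M j (min h H), by rw [length_ray]; omega⟩

theorem rayN_val {M : W} {j : Fin 3} {H : ℕ} (hH : M.length + H < N) {h : ℕ} (hh : h ≤ H) :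
    (rayN M j H hH h).1 = ray M j h := by
  simp [rayN, min_eq_left hh]

theorem rayN_adj {M : W} {j : Fin 3} {H : ℕ} (hH : M.length + H < N) {h : ℕ} (hh : h < H)
    (x : Vec N) : (Gr N).Adj (rayN M j H hH h, x) (rayN M j H hH (h + 1), x) :=
  adj_up (j := j) (by rw [rayN_val hH hh, rayN_val hH hh.le]; rfl) (fun _ _ => rfl)

theorem one_side (a b : Vx N) (M : W) (j : Fin 3) (r : ℕ) (hH : M.length + (r + 1) < N)
    (hA : ¬ (j :: M) <:+ a.1.1) (hB : ¬ (j :: M) <:+ b.1.1)
    (hd : Disjoint (D a.1.1 M) (D b.1.1 M)) (h1 : (D a.1.1 M).card ≤ r)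
    (h2 : (D a.1.1 M).card ≤ (D b.1.1 M).card + 1)
    (h3 : 1 ≤ (D a.1.1 M).card + (D b.1.1 M).card) :
    ∃ x : Vec N, (rayN M j (r + 1) hH (r - (D a.1.1 M).card), x) ∈ disk (Gr N) a r ∧
      ∀ h, r - (D a.1.1 M).card ≤ h → h ≤ r + 1 → (rayN M j (r + 1) hH h, x) ∉ disk (Gr N) b r := by
  classical
  have hcard : (D a.1.1 (rayN M j (r + 1) hH (r - (D a.1.1 M).card)).1).card = r := by
    rw [rayN_val hH (by omega), card_D_ray hA]; omega
  rcases Nat.eq_zero_or_pos (D a.1.1 M).card with h0 | h0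
  · refine ⟨a.2, ?_, ?_⟩
    · rw [mem_disk]
      have := near_of_agree _ a.1 (rayN M j (r + 1) hH (r - (D a.1.1 M).card)) a.2 a.2 rfl
        (fun _ _ => rfl)
      rwa [hcard] at this
    · intro h hh hh' hmem
      have := near_card (mem_disk.1 hmem)
      simp only at this
      rw [rayN_val hH hh', card_D_ray hB] at this
      omega
  · obtain ⟨e, he⟩ := Finset.card_pos.1 h0
    let s0 : Node N × Node N := (b.1, rayN M j (r + 1) hH (r + 1))
    have hF : F s0 = D b.1.1 (ray M j (r + 1)) := by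
      simp only [F, s0]; rw [rayN_val hH le_rfl]
    refine ⟨Function.update a.2 s0 (!(b.2 s0)), ?_, ?_⟩
    · rw [mem_disk]
      have := near_of_agree _ a.1 (rayN M j (r + 1) hH (r - (D a.1.1 M).card)) a.2
        (Function.update a.2 s0 (!(b.2 s0))) rfl (by
          intro s hs
          have hne : s ≠ s0 := by
            rintro rfl
            rw [hF, rayN_val hH (by omega)] at hs
            have h5 : e ∈ D a.1.1 (ray M j (r - (D a.1.1 M).card)) :=
              D_ray_mono hA (Nat.zero_le _) he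
            exact notMem_D_ray hA hB he (Finset.disjoint_left.1 hd he) (r + 1) (hs h5)
          rw [Function.update_of_ne hne])
      rwa [hcard] at this
    · intro h hh hh' hmem
      have := near_card_two (mem_disk.1 hmem) s0 (by
        simp only
        rw [hF, rayN_val hH hh']
        exact D_ray_mono hB hh') (by simp)
      simp only at this
      rw [rayN_val hH hh', card_D_ray hB] at this
      omega

theorem not_separated (a b : Vx N) (r : ℕ) (hab : a.1 ≠ b.1)
    (ha : a.1.1.length + (r + 1) < N) (hb : b.1.1.length + (r + 1) < N) (P : Vx N → Prop)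
    (P1 : ∀ u ∈ disk (Gr N) a r, P u)
    (P2 : ∀ w ∈ disk (Gr N) b r, w ∉ disk (Gr N) a r → ¬ P w)
    (P3 : ∀ u v, P u → (Gr N).Adj u v → ¬ (u ∈ disk (Gr N) a r ∧ u ∈ disk (Gr N) b r) → P v) :
    False := by
  by_cases hfar : 2 * r < (D a.1.1 b.1.1).card
  · have hdis : ∀ u, ¬ (u ∈ disk (Gr N) a r ∧ u ∈ disk (Gr N) b r) := by
      rintro u ⟨h1, h2⟩
      have c1 := near_card (mem_disk.1 h1)
      have c2 := near_card (mem_disk.1 h2)
      have c3 := Finset.card_le_card (D_triangle a.1.1 b.1.1 u.1.1)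
      have c4 := Finset.card_union_le (D a.1.1 u.1.1) (D b.1.1 u.1.1)
      omega
    have all : ∀ (u v : Vx N) (p : (Gr N).Walk u v), P u → P v := by
      intro u v p
      induction p with
      | nil => exact id
      | cons h p ih => exact fun hu => ih (P3 _ _ hu h (hdis _))
    obtain ⟨p⟩ := (gr_connected (N := N) (by omega)).preconnected a b
    have hbb : b ∈ disk (Gr N) b r := mem_disk.2 (Near.refl _ _ _)
    exact P2 b hbb (fun h => hdis b ⟨h, hbb⟩) (all a b p (P1 a (mem_disk.2 (Near.refl _ _ _))))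
  have hpos : 1 ≤ (D a.1.1 b.1.1).card := by
    have hne : a.1.1 ≠ b.1.1 := fun h => hab (Subtype.ext h)
    apply Finset.card_pos.2
    rcases exists_cons_of_ne hne with ⟨j, B', hB, hj⟩ | ⟨j, A', hA, hj⟩
    · exact ⟨j :: B', mem_D.2 (Or.inr ⟨hB ▸ List.suffix_refl _, hj⟩)⟩
    · exact ⟨j :: A', mem_D.2 (Or.inl ⟨hA ▸ List.suffix_refl _, hj⟩)⟩
  obtain ⟨M, hM, c1, c2, hd⟩ := exists_mid _ a.1.1 b.1.1 rfl ((D a.1.1 b.1.1).card / 2)
    ((D a.1.1 b.1.1).card - (D a.1.1 b.1.1).card / 2) (by omega)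
  have hH : M.length + (r + 1) < N := by
    rcases hM with hM | hM <;> have := hM.length_le <;> omega
  obtain ⟨j, hA, hB⟩ := exists_free a.1.1 b.1.1 M
  obtain ⟨x, hx1, hx2⟩ := one_side a b M j r hH hA hB hd (by omega) (by omega) (by omega)
  obtain ⟨y, hy1, hy2⟩ := one_side b a M j r hH hB hA hd.symm (by omega) (by omega) (by omega)
  have up : ∀ h, r - (D a.1.1 M).card ≤ h → h ≤ r + 1 → P (rayN M j (r + 1) hH h, x) := by
    intro h hh
    induction h, hh using Nat.le_induction with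
    | base => exact fun _ => P1 _ hx1
    | succ h hh ih =>
      intro hh'
      exact P3 _ _ (ih (by omega)) (rayN_adj hH (by omega) x)
        (fun hc => hx2 h hh (by omega) hc.2)
  have hQ : (rayN M j (r + 1) hH (r + 1)).1.length < N := by
    rw [rayN_val hH le_rfl, length_ray]; exact hH
  have far1 : ∀ z : Vec N, ¬ ((rayN M j (r + 1) hH (r + 1), z) ∈ disk (Gr N) a r ∧
      (rayN M j (r + 1) hH (r + 1), z) ∈ disk (Gr N) b r) := by
    rintro z ⟨hz, _⟩
    have := near_card (mem_disk.1 hz)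
    simp only at this
    rw [rayN_val hH le_rfl, card_D_ray hA] at this
    omega
  have far2 : ∀ (k : Fin 3) (z : Vec N),
      ¬ ((child (rayN M j (r + 1) hH (r + 1)) hQ k, z) ∈ disk (Gr N) a r ∧
      (child (rayN M j (r + 1) hH (r + 1)) hQ k, z) ∈ disk (Gr N) b r) := by
    rintro k z ⟨hz, _⟩
    have := near_card (mem_disk.1 hz)
    simp only [child] at this
    rw [rayN_val hH le_rfl, card_D_ray_child hA] at this
    omega
  obtain ⟨y1, y2, e1, e2, e3, e4, e5, e6⟩ := row_chain _ hQ x y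
  have top : P (rayN M j (r + 1) hH (r + 1), y) :=
    P3 _ _ (P3 _ _ (P3 _ _ (P3 _ _ (P3 _ _ (P3 _ _ (up (r + 1) (by omega) le_rfl)
      e1 (far1 _)) e2 (far2 _ _)) e3 (far1 _)) e4 (far2 _ _)) e5 (far1 _)) e6 (far2 _ _)
  have down : ∀ d h, h + d = r + 1 → r - (D b.1.1 M).card ≤ h →
      P (rayN M j (r + 1) hH h, y) := by
    intro d
    induction d with
    | zero => intro h hh _; obtain rfl : h = r + 1 := by omega
              exact top
    | succ d ih =>
      intro h hh hh'
      exact P3 _ _ (ih (h + 1) (by omega) (by omega)) (rayN_adj hH (by omega) y).symm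
        (fun hc => hy2 (h + 1) (by omega) (by omega) hc.1)
  exact P2 _ hy1 (hy2 _ le_rfl (by omega))
    (down (r + 1 - (r - (D b.1.1 M).card)) _ (by omega) le_rfl)

theorem no_strong (r : ℕ) (hN : 4 * r + 2 < N) {ι : Type} (T : SimpleGraph ι)
    (B : ι → Set (Vx N)) (hT : IsTreeDecomp (Gr N) T B)
    (hB : ∀ i, ∃ v ∈ B i, B i = disk (Gr N) v r) : False := by
  choose c _ hc using hB
  have hH : ([] : W).length + (2 * r + 1) < N := by simp; omega
  let p : ℕ → Vx N := fun h => (rayN [] 0 (2 * r + 1) hH h, fun _ => false)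
  have hp : ∀ h, h ≤ 2 * r + 1 → (p h).1.1.length = h := by
    intro h hh
    simp only [p]
    rw [rayN_val hH hh, length_ray]; simp
  have hlen : ∀ h, h ≤ 2 * r + 1 → ∀ i, p h ∈ B i →
      (c i).1.1.length ≤ h + r ∧ h ≤ (c i).1.1.length + r := by
    intro h hh i hi
    rw [hc, mem_disk] at hi
    have h1 := near_length hi
    have h2 := near_length hi.symm
    rw [hp h hh] at h1 h2
    exact ⟨h2, h1⟩
  have same : ∀ h, h ≤ 2 * r + 1 → ∀ i k, p h ∈ B i → p h ∈ B k → (c i).1 = (c k).1 := by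
    intro h hh i k hi hk
    refine hT.propagate (p h) (fun k => (c i).1 = (c k).1) ?_ hi hk rfl
    intro k k' hkk' hk hk' heq
    by_contra hne
    have hne' : (c k).1 ≠ (c k').1 := fun h' => hne (heq.trans h')
    obtain ⟨P, P1, P2, P3⟩ := hT.separate hkk'
    rw [hc k] at P1
    rw [hc k, hc k'] at P2 P3
    have l1 := (hlen h hh k hk).1
    have l2 := (hlen h hh k' hk').1
    exact not_separated (c k) (c k') r hne' (by omega) (by omega) P P1 P2 P3
  obtain ⟨i0, hi0⟩ := hT.2.1 (p 0)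
  have all : ∀ h, h ≤ 2 * r + 1 → ∀ k, p h ∈ B k → (c i0).1 = (c k).1 := by
    intro h
    induction h with
    | zero => exact fun hh k hk => same 0 hh i0 k hi0 hk
    | succ h ih =>
      intro hh k hk
      obtain ⟨m, hm1, hm2⟩ := hT.2.2.1 (p h) (p (h + 1)) (rayN_adj hH (by omega) _)
      exact (ih (by omega) m hm1).trans (same (h + 1) hh m k hm2 hk)
  obtain ⟨i1, hi1⟩ := hT.2.1 (p (2 * r + 1))
  have h1 := (hlen 0 (by omega) i0 hi0).1
  have h2 := (hlen _ le_rfl i1 hi1).2
  rw [← all _ le_rfl i1 hi1] at h2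
  omega

/-- A finite connected graph has a one-bag decomposition by a disk. -/
theorem strong_nonempty {V : Type} [Finite V] (G : SimpleGraph V) (hG : G.Connected) :
    {r | ∃ (ι : Type) (_ : Finite ι) (T : SimpleGraph ι) (B : ι → Set V),
      IsTreeDecomp G T B ∧ ∀ i, ∃ v ∈ B i, B i = disk G v r}.Nonempty := by
  obtain ⟨v⟩ := hG.nonempty
  have h : ∀ u, ∃ n, Near G u v n := fun u => by
    obtain ⟨p⟩ := hG.preconnected u v
    exact ⟨p.length, p, le_rfl⟩
  choose n hn using h
  obtain ⟨r, hr⟩ := (Set.finite_range n).bddAbove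
  refine ⟨r, Unit, inferInstance, ⊥, fun _ => Set.univ, ⟨IsTree.of_subsingleton,
    fun _ => ⟨(), trivial⟩, fun _ _ _ => ⟨(), trivial, trivial⟩, fun u => ?_⟩,
    fun _ => ⟨v, trivial, ?_⟩⟩
  · have : Nonempty {i : Unit | u ∈ (fun _ => Set.univ : Unit → Set V) i} := ⟨⟨(), trivial⟩⟩
    exact ⟨fun a b => by rw [Subsingleton.elim a b]⟩
  · symm
    rw [Set.eq_univ_iff_forall]
    intro u
    exact mem_disk.2 ((hn u).mono (hr ⟨u, rfl⟩))

theorem lt_stb (k : ℕ) : k < stb (Gr (4 * k + 3)) := by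
  by_contra h
  obtain ⟨ι, _, T, B, hT, hB⟩ := Nat.sInf_mem (strong_nonempty (Gr (4 * k + 3))
    (gr_connected (by omega)))
  exact no_strong (stb (Gr (4 * k + 3))) (by omega) T B hT hB

end Pool.Agent.Lib.MP_3ffbec_co
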