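import Pool.Agent.Lib.MP_3ffbec_co.General

/-!
The ternary tree of words: a word `l` is a node, `j :: l` are its children, and a nonempty word
also names the edge to its parent. `D A B` is the set of edges on the path from `A` to `B`.
-/

namespace Pool.Agent.Lib.MP_3ffbec_co

open SimpleGraph

abbrev W := List (Fin 3)

/-- The edges on the tree path between two nodes. -/
def D (A B : W) : Finset W := symmDiff A.tails.toFinset B.tails.toFinset

theorem mem_D {A B e : W} : e ∈ D A B ↔ (e <:+ A ∧ ¬ e <:+ B) ∨ (e <:+ B ∧ ¬ e <:+ A) := by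
  simp [D, Finset.mem_symmDiff, List.mem_tails]

theorem D_comm (A B : W) : D A B = D B A := symmDiff_comm _ _

theorem D_self (A : W) : D A A = ∅ := by
  ext e; simp [mem_D]

theorem not_cons_suffix {j : Fin 3} {B e : W} (h : e <:+ B) : ¬ (j :: B) <:+ e := by
  intro h'
  have h1 := h.length_le
  have h2 := h'.length_le
  simp at h2
  omega

theorem D_cons_of_not {A B : W} {j : Fin 3} (h : ¬ (j :: B) <:+ A) :
    (j :: B) ∉ D A B ∧ D A (j :: B) = insert (j :: B) (D A B) := by
  have h0 : ¬ (j :: B) <:+ B := not_cons_suffix (List.suffix_refl B)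
  refine ⟨by simp [mem_D, h, h0], ?_⟩
  ext e
  simp only [mem_D, Finset.mem_insert, List.suffix_cons_iff]
  by_cases he : e = j :: B
  · subst he; simp [h]
  · simp [he]

theorem D_cons_of_suffix {A B : W} {j : Fin 3} (h : (j :: B) <:+ A) :
    (j :: B) ∉ D A (j :: B) ∧ D A B = insert (j :: B) (D A (j :: B)) := by
  have h0 : ¬ (j :: B) <:+ B := not_cons_suffix (List.suffix_refl B)
  refine ⟨by simp [mem_D, h], ?_⟩
  ext e
  simp only [mem_D, Finset.mem_insert, List.suffix_cons_iff]
  by_cases he : e = j :: B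
  · subst he; simp [h, h0]
  · simp [he]

theorem D_triangle (A B C : W) : D A B ⊆ D A C ∪ D B C := by
  intro e he
  simp only [mem_D, Finset.mem_union] at he ⊢
  tauto

/-- At every node some child is an ancestor of neither of two given nodes. -/
theorem exists_free (A B M : W) : ∃ j : Fin 3, ¬ (j :: M) <:+ A ∧ ¬ (j :: M) <:+ B := by
  have uniq : ∀ (C : W) (j k : Fin 3), (j :: M) <:+ C → (k :: M) <:+ C → j = k := by
    intro C j k hj hk
    have := List.suffix_of_suffix_length_le hj hk (by simp)
    have := this.eq_of_length (by simp)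
    simpa using this
  by_contra hcon
  push Not at hcon
  by_cases h0 : ((0 : Fin 3) :: M) <:+ A
  · have h1 : ¬ ((1 : Fin 3) :: M) <:+ A := fun h => absurd (uniq A _ _ h0 h) (by decide)
    have h2 : ¬ ((2 : Fin 3) :: M) <:+ A := fun h => absurd (uniq A _ _ h0 h) (by decide)
    exact absurd (uniq B _ _ (hcon 1 h1) (hcon 2 h2)) (by decide)
  · by_cases h1 : ((1 : Fin 3) :: M) <:+ A
    · have h2 : ¬ ((2 : Fin 3) :: M) <:+ A := fun h => absurd (uniq A _ _ h1 h) (by decide)
      exact absurd (uniq B _ _ (hcon 0 h0) (hcon 2 h2)) (by decide)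
    · exact absurd (uniq B _ _ (hcon 0 h0) (hcon 1 h1)) (by decide)

theorem exists_notMem_D (A B M : W) : ∃ j : Fin 3, (j :: M) ∉ D A B := by
  obtain ⟨j, h1, h2⟩ := exists_free A B M
  exact ⟨j, by simp [mem_D, h1, h2]⟩

theorem exists_cons_of_ne {A B : W} (h : A ≠ B) :
    (∃ j B', B = j :: B' ∧ ¬ (j :: B') <:+ A) ∨ (∃ j A', A = j :: A' ∧ ¬ (j :: A') <:+ B) := by
  by_cases h1 : B <:+ A
  · by_cases h2 : A <:+ B
    · exact absurd (h2.eq_of_length (le_antisymm h2.length_le h1.length_le)) h
    · right
      cases A with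
      | nil => exact absurd List.nil_suffix h2
      | cons j A' => exact ⟨j, A', rfl, h2⟩
  · left
    cases B with
    | nil => exact absurd List.nil_suffix h1
    | cons j B' => exact ⟨j, B', rfl, h1⟩

/-- A node at prescribed distance on the path between two nodes. -/
theorem exists_mid : ∀ (n : ℕ) (A B : W), A.length + B.length = n → ∀ i k, i + k = (D A B).card →
    ∃ M : W, (M <:+ A ∨ M <:+ B) ∧ (D A M).card = i ∧ (D B M).card = k ∧
      Disjoint (D A M) (D B M) := by
  intro n
  induction n using Nat.strong_induction_on with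
  | _ n ih =>
    intro A B hn i k hik
    have step : ∀ (A B' : W) (j : Fin 3), A.length + (j :: B').length = n → ¬ (j :: B') <:+ A →
        ∀ i k, i + (k + 1) = (D A (j :: B')).card →
        ∃ M : W, (M <:+ A ∨ M <:+ (j :: B')) ∧ (D A M).card = i ∧ (D (j :: B') M).card = k + 1 ∧
          Disjoint (D A M) (D (j :: B') M) := by
      intro A B' j hn hj i k hik
      obtain ⟨h1, h2⟩ := D_cons_of_not hj
      rw [h2, Finset.card_insert_of_notMem h1] at hik
      obtain ⟨M, hM, c1, c2, hd⟩ := ih (A.length + B'.length) (by simp at hn; omega) A B' rfl i k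
        (by omega)
      have hjM : ¬ (j :: B') <:+ M := by
        rcases hM with hM | hM
        · exact fun h => hj (h.trans hM)
        · exact not_cons_suffix hM
      obtain ⟨h3, h4⟩ := D_cons_of_not hjM
      refine ⟨M, hM.imp id (fun h => h.trans (List.suffix_cons j B')), c1, ?_, ?_⟩
      · rw [D_comm, h4, Finset.card_insert_of_notMem h3, D_comm, c2]
      · rw [D_comm (j :: B') M, h4, Finset.disjoint_insert_right, D_comm M B']
        exact ⟨by simp [mem_D, hj, hjM], hd⟩
    rcases Nat.eq_zero_or_pos i with hi | hi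
    · subst hi
      refine ⟨A, Or.inl (List.suffix_refl A), by simp [D_self], ?_, by simp [D_self]⟩
      rw [D_comm]; omega
    rcases Nat.eq_zero_or_pos k with hk | hk
    · subst hk
      exact ⟨B, Or.inr (List.suffix_refl B), by omega, by simp [D_self], by simp [D_self]⟩
    have hAB : A ≠ B := by
      rintro rfl
      rw [D_self] at hik
      simp at hik
      omega
    rcases exists_cons_of_ne hAB with ⟨j, B', rfl, hj⟩ | ⟨j, A', rfl, hj⟩
    · obtain ⟨k', rfl⟩ : ∃ k', k = k' + 1 := ⟨k - 1, by omega⟩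
      exact step A B' j hn hj i k' hik
    · obtain ⟨i', rfl⟩ : ∃ i', i = i' + 1 := ⟨i - 1, by omega⟩
      obtain ⟨M, hM, c1, c2, hd⟩ := step B A' j (by omega) hj k i' (by rw [D_comm]; omega)
      exact ⟨M, hM.symm, c2, c1, hd.symm⟩

/-- The ray leaving `M` through the child `j`. -/
def ray (M : W) (j : Fin 3) : ℕ → W
  | 0 => M
  | h + 1 => j :: ray M j h

theorem length_ray (M : W) (j : Fin 3) (h : ℕ) : (ray M j h).length = M.length + h := by
  induction h with
  | zero => rfl
  | succ h ih => simp [ray, ih]; omega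

theorem suffix_ray (M : W) (j : Fin 3) (h : ℕ) : (j :: M) <:+ ray M j (h + 1) := by
  induction h with
  | zero => exact List.suffix_refl _
  | succ h ih => exact ih.trans (List.suffix_cons _ _)

theorem ray_not_suffix {A M : W} {j : Fin 3} (hj : ¬ (j :: M) <:+ A) (h : ℕ) :
    ¬ (j :: ray M j h) <:+ A := fun h' => hj ((suffix_ray M j h).trans h')

theorem card_D_ray {A M : W} {j : Fin 3} (hj : ¬ (j :: M) <:+ A) (h : ℕ) :
    (D A (ray M j h)).card = (D A M).card + h := by
  induction h with
  | zero => rfl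
  | succ h ih =>
    obtain ⟨h1, h2⟩ := D_cons_of_not (ray_not_suffix hj h)
    rw [ray, h2, Finset.card_insert_of_notMem h1, ih]; omega

theorem card_D_ray_child {A M : W} {j : Fin 3} (hj : ¬ (j :: M) <:+ A) (h : ℕ) (k : Fin 3) :
    (D A (k :: ray M j (h + 1))).card = (D A M).card + h + 2 := by
  have : ¬ (k :: ray M j (h + 1)) <:+ A :=
    fun h' => ray_not_suffix hj h ((List.suffix_cons _ _).trans h')
  obtain ⟨h1, h2⟩ := D_cons_of_not this
  rw [h2, Finset.card_insert_of_notMem h1, card_D_ray hj]; omega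

theorem D_ray_mono {A M : W} {j : Fin 3} (hj : ¬ (j :: M) <:+ A) {h h' : ℕ} (hh : h ≤ h') :
    D A (ray M j h) ⊆ D A (ray M j h') := by
  induction hh with
  | refl => exact Finset.Subset.refl _
  | step _ ih =>
    rw [ray, (D_cons_of_not (ray_not_suffix hj _)).2]
    exact ih.trans (Finset.subset_insert _ _)

theorem notMem_D_ray {A B M e : W} {j : Fin 3} (hA : ¬ (j :: M) <:+ A) (hB : ¬ (j :: M) <:+ B)
    (he : e ∈ D A M) (he' : e ∉ D B M) (h : ℕ) : e ∉ D B (ray M j h) := by
  induction h with
  | zero => exact he'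
  | succ h ih =>
    rw [ray, (D_cons_of_not (ray_not_suffix hB _)).2, Finset.mem_insert]
    rintro (rfl | h')
    · rcases mem_D.1 he with h1 | h1
      · exact ray_not_suffix hA h h1.1
      · exact ray_not_suffix (not_cons_suffix (List.suffix_refl M)) h h1.1
    · exact ih h'

end Pool.Agent.Lib.MP_3ffbec_co
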